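import Mathlib

set_option autoImplicit false

namespace Pool.Agent.K3h54.Bar

/-- a family of horizontal segments (bars) in the plane, indexed by `V`: left end, right end and
height of each bar -/
structure Bars (V : Type*) where
  l : V → ℝ
  r : V → ℝ
  y : V → ℝ

variable {V : Type*}

/-- the bar of `v`, a closed horizontal segment -/
def Bars.bar (R : Bars V) (v : V) : Set (ℝ × ℝ) := Set.Icc (R.l v) (R.r v) ×ˢ {R.y v}

/-- the bars are nondegenerate segments and pairwise disjoint -/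
def Bars.Valid (R : Bars V) : Prop :=
  (∀ v, R.l v < R.r v) ∧ ∀ u v, u ≠ v → Disjoint (R.bar u) (R.bar v)

/-- there is a nondegenerate axis-parallel rectangle with one horizontal side in the bar of `u` and
the other in the bar of `v` which meets at most `k` bars other than those of `u` and `v` -/
def Bars.Sees (R : Bars V) (k : ℕ) (u v : V) : Prop :=
  ∃ x₁ x₂ y₁ y₂ : ℝ, x₁ < x₂ ∧ y₁ < y₂ ∧
    ((Set.Icc x₁ x₂ ×ˢ {y₁} ⊆ R.bar u ∧ Set.Icc x₁ x₂ ×ˢ {y₂} ⊆ R.bar v) ∨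
      (Set.Icc x₁ x₂ ×ˢ {y₁} ⊆ R.bar v ∧ Set.Icc x₁ x₂ ×ˢ {y₂} ⊆ R.bar u)) ∧
    {w | w ≠ u ∧ w ≠ v ∧ ((Set.Icc x₁ x₂ ×ˢ Set.Icc y₁ y₂) ∩ R.bar w).Nonempty}.encard ≤ k

/-- `G` is a bar `k`-visibility graph -/
def IsBarVisibility (k : ℕ) (G : SimpleGraph V) : Prop :=
  ∃ R : Bars V, R.Valid ∧ ∀ u v, u ≠ v → (G.Adj u v ↔ R.Sees k u v)

end Pool.Agent.K3h54.Bar
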