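import Mathlib

/-!
Counting visible pairs in a finite set of bars met by a vertical line.
`A` is the set of bars met, `y` their heights.
-/

set_option autoImplicit false
set_option linter.unusedSectionVars false

namespace Pool.Agent.K3h54.Bar

open Finset

variable {V : Type*} [DecidableEq V] (y : V → ℝ) (k : ℕ)

/-- the bars of `A` strictly between `u` and `v` -/
noncomputable def btw (A : Finset V) (u v : V) : Finset V :=
  A.filter fun w => y u < y w ∧ y w < y v

/-- the bars of `A` below `v` -/
noncomputable def below (A : Finset V) (v : V) : Finset V := A.filter fun w => y w < y v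

/-- the bars of `A` above `v` -/
noncomputable def above (A : Finset V) (v : V) : Finset V := A.filter fun w => y v < y w

/-- the visible pairs of `A`, lower bar first -/
noncomputable def vis (A : Finset V) : Finset (V × V) :=
  (A ×ˢ A).filter fun p => y p.1 < y p.2 ∧ (btw y A p.1 p.2).card ≤ k

/-- the weight of a bar -/
noncomputable def wt (A : Finset V) (v : V) : ℕ :=
  (k + 1 - (below y A v).card) + (k + 1 - (above y A v).card)

variable {y k}

lemma mem_btw {A : Finset V} {u v w : V} : w ∈ btw y A u v ↔ w ∈ A ∧ y u < y w ∧ y w < y v := by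
  simp [btw]

lemma mem_below {A : Finset V} {v w : V} : w ∈ below y A v ↔ w ∈ A ∧ y w < y v := by
  simp [below]

lemma mem_above {A : Finset V} {v w : V} : w ∈ above y A v ↔ w ∈ A ∧ y v < y w := by
  simp [above]

lemma mem_vis {A : Finset V} {p : V × V} : p ∈ vis y k A ↔
    (p.1 ∈ A ∧ p.2 ∈ A) ∧ y p.1 < y p.2 ∧ (btw y A p.1 p.2).card ≤ k := by
  simp [vis]

lemma btw_mono {A B : Finset V} (h : A ⊆ B) (u v : V) : btw y A u v ⊆ btw y B u v := by
  intro w hw
  rw [mem_btw] at hw ⊢
  exact ⟨h hw.1, hw.2⟩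

/-- ranks of bars below `v` are distinct -/
lemma rank_below_lt {A : Finset V} {u u' v : V} (hu' : u' ∈ A) (h : y u < y u')
    (h' : y u' < y v) : (btw y A u' v).card < (btw y A u v).card := by
  apply Finset.card_lt_card
  refine ⟨fun w hw => ?_, fun hs => ?_⟩
  · rw [mem_btw] at hw ⊢
    exact ⟨hw.1, h.trans hw.2.1, hw.2.2⟩
  · have h1 : u' ∈ btw y A u v := mem_btw.2 ⟨hu', h, h'⟩
    have h2 := (mem_btw.1 (hs h1)).2.1
    exact lt_irrefl _ h2

lemma rank_below_inj {A : Finset V} (hA : Set.InjOn y A) {u u' v : V} (hu : u ∈ A) (hu' : u' ∈ A)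
    (h : y u < y v) (h' : y u' < y v) (e : (btw y A u v).card = (btw y A u' v).card) : u = u' := by
  rcases lt_trichotomy (y u) (y u') with h1 | h1 | h1
  · have := rank_below_lt hu' h1 h'
    omega
  · exact hA hu hu' h1
  · have := rank_below_lt hu h1 h
    omega

/-- ranks of bars above `v` are distinct -/
lemma rank_above_lt {A : Finset V} {u u' v : V} (hu : u ∈ A) (h : y u < y u')
    (h' : y v < y u) : (btw y A v u).card < (btw y A v u').card := by
  apply Finset.card_lt_card
  refine ⟨fun w hw => ?_, fun hs => ?_⟩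
  · rw [mem_btw] at hw ⊢
    exact ⟨hw.1, hw.2.1, hw.2.2.trans h⟩
  · have h1 : u ∈ btw y A v u' := mem_btw.2 ⟨hu, h', h⟩
    have h2 := (mem_btw.1 (hs h1)).2.2
    exact lt_irrefl _ h2

lemma rank_above_inj {A : Finset V} (hA : Set.InjOn y A) {u u' v : V} (hu : u ∈ A) (hu' : u' ∈ A)
    (h : y v < y u) (h' : y v < y u') (e : (btw y A v u).card = (btw y A v u').card) : u = u' := by
  rcases lt_trichotomy (y u) (y u') with h1 | h1 | h1
  · have := rank_above_lt hu h1 h
    omega
  · exact hA hu hu' h1
  · have := rank_above_lt hu' h1 h'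
    omega

/-! ### inserting a bar -/

/-- all ordered pairs of `A` containing `v` -/
noncomputable def pv (y : V → ℝ) (A : Finset V) (v : V) : Finset (V × V) :=
  (A ×ˢ A).filter fun p => y p.1 < y p.2 ∧ (p.1 = v ∨ p.2 = v)

lemma mem_pv {A : Finset V} {v : V} {p : V × V} : p ∈ pv y A v ↔
    (p.1 ∈ A ∧ p.2 ∈ A) ∧ y p.1 < y p.2 ∧ (p.1 = v ∨ p.2 = v) := by
  simp [pv]

lemma card_pv_le (A : Finset V) (v : V) : (pv y (insert v A) v).card ≤ A.card := by
  -- map a pair to its other member
  refine Finset.card_le_card_of_injOn (fun p => if p.1 = v then p.2 else p.1) ?_ ?_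
  · intro p hp
    obtain ⟨⟨h1, h2⟩, h3, h4⟩ := mem_pv.1 hp
    have hne : p.1 ≠ p.2 := fun h => by rw [h] at h3; exact lt_irrefl _ h3
    simp only []
    split_ifs with h
    · rcases Finset.mem_insert.1 h2 with h5 | h5
      · exact absurd (h.trans h5.symm) hne
      · exact h5
    · rcases Finset.mem_insert.1 h1 with h5 | h5
      · exact absurd h5 h
      · exact h5
  · intro p hp q hq hpq
    obtain ⟨⟨_, _⟩, h3, h4⟩ := mem_pv.1 hp
    obtain ⟨⟨_, _⟩, g3, g4⟩ := mem_pv.1 hq
    simp only [] at hpq
    split_ifs at hpq with h g g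
    · exact Prod.ext (h.trans g.symm) hpq
    · have g5 : q.2 = v := g4.resolve_left g
      rw [h, hpq] at h3
      rw [g5] at g3
      exact absurd h3 (lt_asymm g3)
    · have h5 : p.2 = v := h4.resolve_left h
      rw [g, ← hpq] at g3
      rw [h5] at h3
      exact absurd h3 (lt_asymm g3)
    · exact Prod.ext hpq ((h4.resolve_left h).trans (g4.resolve_left g).symm)

/-- visible pairs containing `v` -/
noncomputable def vn (y : V → ℝ) (k : ℕ) (A : Finset V) (v : V) : Finset (V × V) :=
  (vis y k A).filter fun p => p.1 = v ∨ p.2 = v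

lemma vn_subset_pv (A : Finset V) (v : V) : vn y k A v ⊆ pv y A v := by
  intro p hp
  obtain ⟨h1, h2⟩ := Finset.mem_filter.1 hp
  obtain ⟨h3, h4, _⟩ := mem_vis.1 h1
  exact mem_pv.2 ⟨h3, h4, h2⟩

lemma vis_insert_subset (A : Finset V) (v : V) :
    vis y k (insert v A) ⊆ vis y k A ∪ vn y k (insert v A) v := by
  intro p hp
  rw [Finset.mem_union]
  by_cases h : p.1 = v ∨ p.2 = v
  · right
    exact Finset.mem_filter.2 ⟨hp, h⟩
  · left
    push Not at h
    obtain ⟨⟨h1, h2⟩, h3, h4⟩ := mem_vis.1 hp
    refine mem_vis.2 ⟨⟨(Finset.mem_insert.1 h1).resolve_left h.1,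
      (Finset.mem_insert.1 h2).resolve_left h.2⟩, h3, le_trans ?_ h4⟩
    exact Finset.card_le_card (btw_mono (Finset.subset_insert _ _) _ _)

lemma card_vis_below {A : Finset V} (hA : Set.InjOn y A) (v : V) :
    (A.filter fun u => y u < y v ∧ (btw y A u v).card ≤ k).card ≤ k + 1 := by
  have : (A.filter fun u => y u < y v ∧ (btw y A u v).card ≤ k).card ≤ (range (k + 1)).card := by
    refine Finset.card_le_card_of_injOn (fun u => (btw y A u v).card) ?_ ?_
    · intro u hu
      have := (Finset.mem_filter.1 hu).2.2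
      exact Finset.mem_coe.2 (Finset.mem_range.2 (Nat.lt_succ_of_le this))
    · intro u hu u' hu' e
      obtain ⟨h1, h2, _⟩ := Finset.mem_filter.1 hu
      obtain ⟨g1, g2, _⟩ := Finset.mem_filter.1 hu'
      exact rank_below_inj hA h1 g1 h2 g2 e
  rwa [Finset.card_range] at this

lemma card_vis_above {A : Finset V} (hA : Set.InjOn y A) (v : V) :
    (A.filter fun u => y v < y u ∧ (btw y A v u).card ≤ k).card ≤ k + 1 := by
  have : (A.filter fun u => y v < y u ∧ (btw y A v u).card ≤ k).card ≤ (range (k + 1)).card := by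
    refine Finset.card_le_card_of_injOn (fun u => (btw y A v u).card) ?_ ?_
    · intro u hu
      have := (Finset.mem_filter.1 hu).2.2
      exact Finset.mem_coe.2 (Finset.mem_range.2 (Nat.lt_succ_of_le this))
    · intro u hu u' hu' e
      obtain ⟨h1, h2, _⟩ := Finset.mem_filter.1 hu
      obtain ⟨g1, g2, _⟩ := Finset.mem_filter.1 hu'
      exact rank_above_inj hA h1 g1 h2 g2 e
  rwa [Finset.card_range] at this

/-- a new bar: visible pairs plus weight -/
lemma card_vn_add_wt {A : Finset V} (hA : Set.InjOn y A) (v : V) :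
    (vn y k A v).card + wt y k A v ≤ 2 * k + 2 := by
  have h1 : vn y k A v ⊆
      ((A.filter fun u => y u < y v ∧ (btw y A u v).card ≤ k).image fun u => (u, v)) ∪
      ((A.filter fun u => y v < y u ∧ (btw y A v u).card ≤ k).image fun u => (v, u)) := by
    intro p hp
    obtain ⟨h1, h2⟩ := Finset.mem_filter.1 hp
    obtain ⟨⟨h3, h4⟩, h5, h6⟩ := mem_vis.1 h1
    rw [Finset.mem_union, Finset.mem_image, Finset.mem_image]
    rcases h2 with h2 | h2
    · right
      refine ⟨p.2, Finset.mem_filter.2 ⟨h4, ?_, ?_⟩, Prod.ext h2.symm rfl⟩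
      · rw [← h2]; exact h5
      · rw [← h2]; exact h6
    · left
      refine ⟨p.1, Finset.mem_filter.2 ⟨h3, ?_, ?_⟩, Prod.ext rfl h2.symm⟩
      · rw [← h2]; exact h5
      · rw [← h2]; exact h6
  have h2 := (Finset.card_le_card h1).trans (Finset.card_union_le _ _)
  have h3 := (Finset.card_image_le (s := A.filter fun u => y u < y v ∧ (btw y A u v).card ≤ k)
    (f := fun u => (u, v)))
  have h4 := (Finset.card_image_le (s := A.filter fun u => y v < y u ∧ (btw y A v u).card ≤ k)
    (f := fun u => (v, u)))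
  have h5 := card_vis_below (k := k) hA v
  have h6 := card_vis_above (k := k) hA v
  have h7 : (A.filter fun u => y u < y v ∧ (btw y A u v).card ≤ k).card ≤ (below y A v).card :=
    Finset.card_le_card fun u hu => by
      obtain ⟨h1, h2, _⟩ := Finset.mem_filter.1 hu
      exact mem_below.2 ⟨h1, h2⟩
  have h8 : (A.filter fun u => y v < y u ∧ (btw y A v u).card ≤ k).card ≤ (above y A v).card :=
    Finset.card_le_card fun u hu => by
      obtain ⟨h1, h2, _⟩ := Finset.mem_filter.1 hu
      exact mem_above.2 ⟨h1, h2⟩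
  unfold wt
  omega

lemma wt_insert_le (A : Finset V) (v b : V) : wt y k (insert v A) b ≤ wt y k A b := by
  have h1 : (below y A b).card ≤ (below y (insert v A) b).card :=
    Finset.card_le_card fun u hu => by
      rw [mem_below] at hu ⊢
      exact ⟨Finset.mem_insert_of_mem hu.1, hu.2⟩
  have h2 : (above y A b).card ≤ (above y (insert v A) b).card :=
    Finset.card_le_card fun u hu => by
      rw [mem_above] at hu ⊢
      exact ⟨Finset.mem_insert_of_mem hu.1, hu.2⟩
  unfold wt
  omega

/-! ### removing a bar -/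

/-- bars below `z` whose weight increases when `z` is removed -/
noncomputable def Bz (y : V → ℝ) (k : ℕ) (A : Finset V) (z : V) : Finset V :=
  A.filter fun b => y b < y z ∧ (above y A b).card ≤ k + 1

/-- bars above `z` whose weight increases when `z` is removed -/
noncomputable def Cz (y : V → ℝ) (k : ℕ) (A : Finset V) (z : V) : Finset V :=
  A.filter fun b => y z < y b ∧ (below y A b).card ≤ k + 1

lemma btw_split {A : Finset V} (hA : Set.InjOn y A) {u z v : V} (hz : z ∈ A) (h1 : y u < y z)
    (h2 : y z < y v) :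
    (btw y A u v).card = (btw y A u z).card + 1 + (btw y A z v).card := by
  have e : btw y A u v = insert z (btw y A u z ∪ btw y A z v) := by
    ext w
    rw [mem_insert, mem_union, mem_btw, mem_btw, mem_btw]
    constructor
    · rintro ⟨hw, h3, h4⟩
      rcases lt_trichotomy (y w) (y z) with h | h | h
      · exact Or.inr (Or.inl ⟨hw, h3, h⟩)
      · exact Or.inl (hA hw hz h)
      · exact Or.inr (Or.inr ⟨hw, h, h4⟩)
    · rintro (rfl | ⟨hw, h3, h4⟩ | ⟨hw, h3, h4⟩)
      · exact ⟨hz, h1, h2⟩
      · exact ⟨hw, h3, h4.trans h2⟩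
      · exact ⟨hw, h1.trans h3, h4⟩
  rw [e, Finset.card_insert_of_notMem, Finset.card_union_of_disjoint]
  · omega
  · rw [Finset.disjoint_left]
    intro w hw hw'
    exact lt_asymm (mem_btw.1 hw).2.2 (mem_btw.1 hw').2.1
  · rw [mem_union, mem_btw, mem_btw]
    rintro (⟨_, _, h⟩ | ⟨_, h, _⟩) <;> exact lt_irrefl _ h

lemma btw_above {A : Finset V} {u v : V} (hv : v ∈ A) (h : y u < y v) :
    (btw y A u v).card + 1 ≤ (above y A u).card := by
  have : insert v (btw y A u v) ⊆ above y A u := by
    intro w hw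
    rw [mem_insert, mem_btw] at hw
    rcases hw with rfl | ⟨hw, h1, _⟩
    · exact mem_above.2 ⟨hv, h⟩
    · exact mem_above.2 ⟨hw, h1⟩
  have h1 := Finset.card_le_card this
  rwa [Finset.card_insert_of_notMem] at h1
  rw [mem_btw]
  rintro ⟨_, _, h⟩
  exact lt_irrefl _ h

lemma btw_below {A : Finset V} {u v : V} (hu : u ∈ A) (h : y u < y v) :
    (btw y A u v).card + 1 ≤ (below y A v).card := by
  have : insert u (btw y A u v) ⊆ below y A v := by
    intro w hw
    rw [mem_insert, mem_btw] at hw
    rcases hw with rfl | ⟨hw, _, h1⟩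
    · exact mem_below.2 ⟨hu, h⟩
    · exact mem_below.2 ⟨hw, h1⟩
  have h1 := Finset.card_le_card this
  rwa [Finset.card_insert_of_notMem] at h1
  rw [mem_btw]
  rintro ⟨_, h, _⟩
  exact lt_irrefl _ h

lemma new_pair {A : Finset V} (hA : Set.InjOn y A) {z : V} (hz : z ∈ A) {p : V × V}
    (hp : p ∈ vis y k (A.erase z) \ vis y k A) :
    p.1 ∈ A ∧ p.2 ∈ A ∧ y p.1 < y z ∧ y z < y p.2 ∧
      (btw y A p.1 z).card + (btw y A z p.2).card = k := by
  obtain ⟨h1, h2⟩ := Finset.mem_sdiff.1 hp
  obtain ⟨⟨h3, h4⟩, h5, h6⟩ := mem_vis.1 h1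
  have h3' := Finset.mem_of_mem_erase h3
  have h4' := Finset.mem_of_mem_erase h4
  have h7 : ¬ (btw y A p.1 p.2).card ≤ k := fun h => h2 (mem_vis.2 ⟨⟨h3', h4'⟩, h5, h⟩)
  have e : btw y (A.erase z) p.1 p.2 = (btw y A p.1 p.2).erase z := by
    ext w
    rw [mem_btw, mem_erase, mem_erase, mem_btw]
    tauto
  have h8 : z ∈ btw y A p.1 p.2 := by
    by_contra h
    rw [e, Finset.erase_eq_of_notMem h] at h6
    exact h7 h6
  rw [e, Finset.card_erase_of_mem h8] at h6
  obtain ⟨_, h9, h10⟩ := mem_btw.1 h8
  refine ⟨h3', h4', h9, h10, ?_⟩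
  have := btw_split hA hz h9 h10
  omega

/-- removing a bar: new visible pairs and weight increases number at most `k + 1` -/
lemma remove_bound {A : Finset V} (hA : Set.InjOn y A) {z : V} (hz : z ∈ A) :
    (vis y k (A.erase z) \ vis y k A).card + (Bz y k A z).card + (Cz y k A z).card ≤ k + 1 := by
  set P := vis y k (A.erase z) \ vis y k A with hP
  set f1 : V × V → ℕ := fun p => (btw y A p.1 z).card with hf1
  set f2 : V → ℕ := fun b => (btw y A b z).card with hf2
  set f3 : V → ℕ := fun b => k - (btw y A z b).card with hf3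
  have hB : ∀ b ∈ Bz y k A z, b ∈ A ∧ y b < y z ∧ (above y A b).card ≤ k + 1 ∧
      (btw y A b z).card ≤ k := by
    intro b hb
    obtain ⟨h1, h2, h3⟩ := Finset.mem_filter.1 hb
    have := btw_above hz h2
    exact ⟨h1, h2, h3, by omega⟩
  have hC : ∀ b ∈ Cz y k A z, b ∈ A ∧ y z < y b ∧ (below y A b).card ≤ k + 1 ∧
      (btw y A z b).card ≤ k := by
    intro b hb
    obtain ⟨h1, h2, h3⟩ := Finset.mem_filter.1 hb
    have := btw_below hz h2
    exact ⟨h1, h2, h3, by omega⟩
  have c1 : (P.image f1).card = P.card := by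
    refine Finset.card_image_of_injOn fun p hp q hq e => ?_
    obtain ⟨h1, h2, h3, h4, h5⟩ := new_pair hA hz hp
    obtain ⟨g1, g2, g3, g4, g5⟩ := new_pair hA hz hq
    have e1 : p.1 = q.1 := rank_below_inj hA h1 g1 h3 g3 e
    have e2 : p.2 = q.2 := rank_above_inj hA h2 g2 h4 g4 (by rw [e1] at h5; omega)
    exact Prod.ext e1 e2
  have c2 : ((Bz y k A z).image f2).card = (Bz y k A z).card := by
    refine Finset.card_image_of_injOn fun b hb c hc e => ?_
    obtain ⟨h1, h2, _, _⟩ := hB b hb
    obtain ⟨g1, g2, _, _⟩ := hB c hc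
    exact rank_below_inj hA h1 g1 h2 g2 e
  have c3 : ((Cz y k A z).image f3).card = (Cz y k A z).card := by
    refine Finset.card_image_of_injOn fun b hb c hc e => ?_
    obtain ⟨h1, h2, _, h3⟩ := hC b hb
    obtain ⟨g1, g2, _, g3⟩ := hC c hc
    simp only [hf3] at e
    exact rank_above_inj hA h1 g1 h2 g2 (by omega)
  have d12 : Disjoint (P.image f1) ((Bz y k A z).image f2) := by
    rw [Finset.disjoint_left]
    intro i hi hi'
    obtain ⟨p, hp, rfl⟩ := Finset.mem_image.1 hi
    obtain ⟨b, hb, e⟩ := Finset.mem_image.1 hi'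
    obtain ⟨h1, h2, h3, h4, h5⟩ := new_pair hA hz hp
    obtain ⟨g1, g2, g3, g4⟩ := hB b hb
    simp only [hf1, hf2] at e
    have e1 : b = p.1 := rank_below_inj hA g1 h1 g2 h3 e
    subst e1
    have h6 := btw_split hA hz h3 h4
    have h7 := btw_above h2 (h3.trans h4)
    omega
  have d13 : Disjoint (P.image f1) ((Cz y k A z).image f3) := by
    rw [Finset.disjoint_left]
    intro i hi hi'
    obtain ⟨p, hp, rfl⟩ := Finset.mem_image.1 hi
    obtain ⟨b, hb, e⟩ := Finset.mem_image.1 hi'
    obtain ⟨h1, h2, h3, h4, h5⟩ := new_pair hA hz hp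
    obtain ⟨g1, g2, g3, g4⟩ := hC b hb
    simp only [hf1, hf3] at e
    have e1 : b = p.2 := rank_above_inj hA g1 h2 g2 h4 (by omega)
    subst e1
    have h6 := btw_split hA hz h3 h4
    have h7 := btw_below h1 (h3.trans h4)
    omega
  have d23 : Disjoint ((Bz y k A z).image f2) ((Cz y k A z).image f3) := by
    rw [Finset.disjoint_left]
    intro i hi hi'
    obtain ⟨b, hb, rfl⟩ := Finset.mem_image.1 hi
    obtain ⟨c, hc, e⟩ := Finset.mem_image.1 hi'
    obtain ⟨h1, h2, h3, h4⟩ := hB b hb
    obtain ⟨g1, g2, g3, g4⟩ := hC c hc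
    simp only [hf2, hf3] at e
    have h6 := btw_split hA hz h2 g2
    have h7 := btw_above g1 (h2.trans g2)
    omega
  have hsub : P.image f1 ∪ (Bz y k A z).image f2 ∪ (Cz y k A z).image f3 ⊆ range (k + 1) := by
    intro i hi
    rw [mem_union, mem_union, mem_image, mem_image, mem_image] at hi
    rw [mem_range]
    rcases hi with (⟨p, hp, rfl⟩ | ⟨b, hb, rfl⟩) | ⟨b, hb, rfl⟩
    · have := (new_pair hA hz hp).2.2.2.2
      simp only [hf1]
      omega
    · have := (hB b hb).2.2.2
      simp only [hf2]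
      omega
    · simp only [hf3]
      omega
  have h := Finset.card_le_card hsub
  rw [Finset.card_union_of_disjoint (Finset.disjoint_union_left.2 ⟨d13, d23⟩),
    Finset.card_union_of_disjoint d12, c1, c2, c3, Finset.card_range] at h
  exact h

lemma wt_erase_le {A : Finset V} {z : V} {b : V} (hb : b ∈ A) :
    wt y k (A.erase z) b ≤ wt y k A b + (if b ∈ Bz y k A z then 1 else 0) +
      (if b ∈ Cz y k A z then 1 else 0) := by
  have e1 : below y (A.erase z) b = (below y A b).erase z := by
    ext w
    rw [mem_below, mem_erase, mem_erase, mem_below]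
    tauto
  have e2 : above y (A.erase z) b = (above y A b).erase z := by
    ext w
    rw [mem_above, mem_erase, mem_erase, mem_above]
    tauto
  unfold wt
  rw [e1, e2]
  by_cases h1 : z ∈ below y A b
  · have h1' := (mem_below.1 h1).2
    have h2 : z ∉ above y A b := fun h => lt_asymm h1' (mem_above.1 h).2
    rw [Finset.erase_eq_of_notMem h2, Finset.card_erase_of_mem h1]
    by_cases h3 : (below y A b).card ≤ k + 1
    · have h4 : b ∈ Cz y k A z := Finset.mem_filter.2 ⟨hb, h1', h3⟩
      rw [if_pos h4]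
      omega
    · omega
  · rw [Finset.erase_eq_of_notMem h1]
    by_cases h2 : z ∈ above y A b
    · have h2' := (mem_above.1 h2).2
      rw [Finset.card_erase_of_mem h2]
      by_cases h3 : (above y A b).card ≤ k + 1
      · have h4 : b ∈ Bz y k A z := Finset.mem_filter.2 ⟨hb, h2', h3⟩
        rw [if_pos h4]
        omega
      · omega
    · rw [Finset.erase_eq_of_notMem h2]
      omega

/-! ### invisible pairs when few bars are left -/

lemma card_invis_above {A : Finset V} (hA : Set.InjOn y A) (v : V) :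
    (A.filter fun u => y v < y u ∧ k < (btw y A v u).card).card ≤
      (above y A v).card - (k + 1) := by
  have : (A.filter fun u => y v < y u ∧ k < (btw y A v u).card).card ≤
      (Finset.Ico (k + 1) (above y A v).card).card := by
    refine Finset.card_le_card_of_injOn (fun u => (btw y A v u).card) ?_ ?_
    · intro u hu
      obtain ⟨h1, h2, h3⟩ := Finset.mem_filter.1 hu
      have := btw_above h1 h2
      exact Finset.mem_coe.2 (Finset.mem_Ico.2 ⟨Nat.succ_le_of_lt h3, Nat.lt_of_succ_le this⟩)
    · intro u hu u' hu' e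
      obtain ⟨h1, h2, _⟩ := Finset.mem_filter.1 hu
      obtain ⟨g1, g2, _⟩ := Finset.mem_filter.1 hu'
      exact rank_above_inj hA h1 g1 h2 g2 e
  rwa [Nat.card_Ico] at this

lemma card_invis_below {A : Finset V} (hA : Set.InjOn y A) (v : V) :
    (A.filter fun u => y u < y v ∧ k < (btw y A u v).card).card ≤
      (below y A v).card - (k + 1) := by
  have : (A.filter fun u => y u < y v ∧ k < (btw y A u v).card).card ≤
      (Finset.Ico (k + 1) (below y A v).card).card := by
    refine Finset.card_le_card_of_injOn (fun u => (btw y A u v).card) ?_ ?_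
    · intro u hu
      obtain ⟨h1, h2, h3⟩ := Finset.mem_filter.1 hu
      have := btw_below h1 h2
      exact Finset.mem_coe.2 (Finset.mem_Ico.2 ⟨Nat.succ_le_of_lt h3, Nat.lt_of_succ_le this⟩)
    · intro u hu u' hu' e
      obtain ⟨h1, h2, _⟩ := Finset.mem_filter.1 hu
      obtain ⟨g1, g2, _⟩ := Finset.mem_filter.1 hu'
      exact rank_below_inj hA h1 g1 h2 g2 e
  rwa [Nat.card_Ico] at this

/-- if at most `2k+3` bars are present, the number of bars not visible from `v` is at most its
weight -/
lemma card_invis_le_wt {A : Finset V} (hA : Set.InjOn y A) {v : V} (hv : v ∈ A)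
    (hc : A.card ≤ 2 * k + 3) :
    (pv y A v \ vis y k A).card ≤ wt y k A v := by
  have h1 : pv y A v \ vis y k A ⊆
      ((A.filter fun u => y u < y v ∧ k < (btw y A u v).card).image fun u => (u, v)) ∪
      ((A.filter fun u => y v < y u ∧ k < (btw y A v u).card).image fun u => (v, u)) := by
    intro p hp
    obtain ⟨h1, h2⟩ := Finset.mem_sdiff.1 hp
    obtain ⟨⟨h3, h4⟩, h5, h6⟩ := mem_pv.1 h1
    have h7 : k < (btw y A p.1 p.2).card := by
      by_contra h
      exact h2 (mem_vis.2 ⟨⟨h3, h4⟩, h5, not_lt.1 h⟩)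
    rw [Finset.mem_union, Finset.mem_image, Finset.mem_image]
    rcases h6 with h6 | h6
    · right
      refine ⟨p.2, Finset.mem_filter.2 ⟨h4, ?_, ?_⟩, Prod.ext h6.symm rfl⟩
      · rw [← h6]; exact h5
      · rw [← h6]; exact h7
    · left
      refine ⟨p.1, Finset.mem_filter.2 ⟨h3, ?_, ?_⟩, Prod.ext rfl h6.symm⟩
      · rw [← h6]; exact h5
      · rw [← h6]; exact h7
  have h2 := (Finset.card_le_card h1).trans (Finset.card_union_le _ _)
  have h3 := (Finset.card_image_le (s := A.filter fun u => y u < y v ∧ k < (btw y A u v).card)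
    (f := fun u => (u, v)))
  have h4 := (Finset.card_image_le (s := A.filter fun u => y v < y u ∧ k < (btw y A v u).card)
    (f := fun u => (v, u)))
  have h5 := card_invis_below (k := k) hA v
  have h6 := card_invis_above (k := k) hA v
  have h7 : (below y A v).card + (above y A v).card + 1 ≤ A.card := by
    have hd : Disjoint (below y A v) (above y A v) := by
      rw [Finset.disjoint_left]
      intro w hw hw'
      exact lt_asymm (mem_below.1 hw).2 (mem_above.1 hw').2
    rw [← Finset.card_union_of_disjoint hd, ← Finset.card_insert_of_notMem (a := v)]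
    · apply Finset.card_le_card
      intro w hw
      rw [mem_insert, mem_union, mem_below, mem_above] at hw
      rcases hw with rfl | ⟨hw, _⟩ | ⟨hw, _⟩
      · exact hv
      · exact hw
      · exact hw
    · rw [mem_union, mem_below, mem_above]
      rintro (⟨_, h⟩ | ⟨_, h⟩) <;> exact lt_irrefl _ h
  unfold wt
  omega

end Pool.Agent.K3h54.Bar
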