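import Pool.Agent.K3h54.Bar.Defs

/-!
The construction: bars through a common vertical line, with left lengths `ell` and right
lengths `rho`.
-/

set_option autoImplicit false

namespace Pool.Agent.K3h54.Bar

open Finset

variable {n : ℕ}

/-- the family of bars `[-a v, b v] × {v}` -/
noncomputable def fam (a b : Fin n → ℕ) : Bars (Fin n) where
  l v := -(a v : ℝ)
  r v := b v
  y v := (v : ℕ)

lemma fam_valid {a b : Fin n → ℕ} (ha : ∀ v, 1 ≤ a v) : (fam a b).Valid := by
  constructor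
  · intro v
    have h1 : (1 : ℝ) ≤ a v := by exact_mod_cast ha v
    have h2 : (0 : ℝ) ≤ b v := Nat.cast_nonneg _
    simp only [fam]
    linarith
  · intro u v huv
    rw [Set.disjoint_left]
    rintro ⟨x, z⟩ ⟨_, h1⟩ ⟨_, h2⟩
    simp only [fam, Set.mem_singleton_iff] at h1 h2
    rw [h1] at h2
    exact huv (Fin.ext (by exact_mod_cast h2))

lemma encard_le_of_nat {k c : ℕ} {S : Set (Fin n)} (h : ∀ w ∈ S, c ≤ (w : ℕ) ∧ (w : ℕ) < c + k) :
    S.encard ≤ k := by
  classical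
  have h1 : S ⊆ ((univ.filter fun w : Fin n => c ≤ (w : ℕ) ∧ (w : ℕ) < c + k : Finset (Fin n)) :
      Set (Fin n)) := by
    intro w hw
    simpa using h w hw
  refine (Set.encard_le_encard h1).trans ?_
  rw [Set.encard_coe_eq_coe_finsetCard]
  have h2 : (univ.filter fun w : Fin n => c ≤ (w : ℕ) ∧ (w : ℕ) < c + k).card ≤
      (Finset.Ico c (c + k)).card := by
    refine Finset.card_le_card_of_injOn (fun w => (w : ℕ)) ?_ ?_
    · intro w hw
      have := (Finset.mem_filter.1 hw).2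
      exact Finset.mem_coe.2 (Finset.mem_Ico.2 this)
    · intro w _ w' _ e
      exact Fin.ext e
  rw [Nat.card_Ico] at h2
  have h3 : (univ.filter fun w : Fin n => c ≤ (w : ℕ) ∧ (w : ℕ) < c + k).card ≤ k := by omega
  exact_mod_cast h3

lemma sees_left {a b : Fin n → ℕ} (ha : ∀ v, 1 ≤ a v) (hinj : Function.Injective a) {k c : ℕ}
    {u v : Fin n} (huv : u < v)
    (h : ∀ w : Fin n, u < w → w < v → min (a u) (a v) < a w → c ≤ (w : ℕ) ∧ (w : ℕ) < c + k) :
    (fam a b).Sees k u v := by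
  set m := min (a u) (a v) with hm
  have hm1 : 1 ≤ m := le_min (ha u) (ha v)
  have hmr : (1 : ℝ) ≤ m := by exact_mod_cast hm1
  have hmu : (m : ℝ) ≤ a u := by exact_mod_cast min_le_left _ _
  have hmv : (m : ℝ) ≤ a v := by exact_mod_cast min_le_right _ _
  have hb : ∀ w, (0 : ℝ) ≤ b w := fun w => Nat.cast_nonneg _
  refine ⟨-m, -m + 1 / 2, (u : ℕ), (v : ℕ), by linarith, by exact_mod_cast huv,
    Or.inl ⟨?_, ?_⟩, ?_⟩
  · rintro ⟨x, z⟩ ⟨⟨h1, h2⟩, h3⟩
    refine ⟨⟨?_, ?_⟩, h3⟩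
    · simp only [fam] at h1 ⊢; linarith
    · simp only [fam] at h2 ⊢; linarith [hb u]
  · rintro ⟨x, z⟩ ⟨⟨h1, h2⟩, h3⟩
    refine ⟨⟨?_, ?_⟩, h3⟩
    · simp only [fam] at h1 ⊢; linarith
    · simp only [fam] at h2 ⊢; linarith [hb v]
  · refine encard_le_of_nat (c := c) ?_
    rintro w ⟨hwu, hwv, ⟨x, z⟩, ⟨⟨h1, h2⟩, h3, h4⟩, ⟨h5, _⟩, h6⟩
    simp only [fam, Set.mem_singleton_iff] at h1 h2 h3 h4 h5 h6
    rw [h6] at h3 h4
    have g1 : (u : ℕ) ≤ w := by exact_mod_cast h3
    have g2 : (w : ℕ) ≤ v := by exact_mod_cast h4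
    have g3 : u < w := lt_of_le_of_ne (Fin.le_def.2 g1) (Ne.symm hwu)
    have g4 : w < v := lt_of_le_of_ne (Fin.le_def.2 g2) hwv
    have g5 : (m : ℝ) ≤ a w + 1 / 2 := by linarith
    have g6 : m ≤ a w := by
      have : (m : ℝ) < a w + 1 := by linarith
      have h7 : m < a w + 1 := by exact_mod_cast this
      omega
    have g7 : m ≠ a w := by
      intro e
      rcases min_choice (a u) (a v) with h | h
      · exact hwu (hinj (by rw [← e, hm, h]))
      · exact hwv (hinj (by rw [← e, hm, h]))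
    exact h w g3 g4 (lt_of_le_of_ne g6 g7)

lemma sees_right {a b : Fin n → ℕ} (hb : ∀ v, 1 ≤ b v) (hinj : Function.Injective b) {k c : ℕ}
    {u v : Fin n} (huv : u < v)
    (h : ∀ w : Fin n, u < w → w < v → min (b u) (b v) < b w → c ≤ (w : ℕ) ∧ (w : ℕ) < c + k) :
    (fam a b).Sees k u v := by
  set m := min (b u) (b v) with hm
  have hm1 : 1 ≤ m := le_min (hb u) (hb v)
  have hmr : (1 : ℝ) ≤ m := by exact_mod_cast hm1
  have hmu : (m : ℝ) ≤ b u := by exact_mod_cast min_le_left _ _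
  have hmv : (m : ℝ) ≤ b v := by exact_mod_cast min_le_right _ _
  have ha : ∀ w, (0 : ℝ) ≤ a w := fun w => Nat.cast_nonneg _
  refine ⟨m - 1 / 2, m, (u : ℕ), (v : ℕ), by linarith, by exact_mod_cast huv,
    Or.inl ⟨?_, ?_⟩, ?_⟩
  · rintro ⟨x, z⟩ ⟨⟨h1, h2⟩, h3⟩
    refine ⟨⟨?_, ?_⟩, h3⟩
    · simp only [fam] at h1 ⊢; linarith [ha u]
    · simp only [fam] at h2 ⊢; linarith
  · rintro ⟨x, z⟩ ⟨⟨h1, h2⟩, h3⟩
    refine ⟨⟨?_, ?_⟩, h3⟩
    · simp only [fam] at h1 ⊢; linarith [ha v]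
    · simp only [fam] at h2 ⊢; linarith
  · refine encard_le_of_nat (c := c) ?_
    rintro w ⟨hwu, hwv, ⟨x, z⟩, ⟨⟨h1, h2⟩, h3, h4⟩, ⟨_, h5⟩, h6⟩
    simp only [fam, Set.mem_singleton_iff] at h1 h2 h3 h4 h5 h6
    rw [h6] at h3 h4
    have g1 : (u : ℕ) ≤ w := by exact_mod_cast h3
    have g2 : (w : ℕ) ≤ v := by exact_mod_cast h4
    have g3 : u < w := lt_of_le_of_ne (Fin.le_def.2 g1) (Ne.symm hwu)
    have g4 : w < v := lt_of_le_of_ne (Fin.le_def.2 g2) hwv
    have g6 : m ≤ b w := by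
      have : (m : ℝ) < b w + 1 := by linarith
      have h7 : m < b w + 1 := by exact_mod_cast this
      omega
    have g7 : m ≠ b w := by
      intro e
      rcases min_choice (b u) (b v) with h | h
      · exact hwu (hinj (by rw [← e, hm, h]))
      · exact hwv (hinj (by rw [← e, hm, h]))
    exact h w g3 g4 (lt_of_le_of_ne g6 g7)

/-- left lengths -/
def ell (k n h : ℕ) : ℕ :=
  if h ≤ k then n - 1 - 2 * h
  else if h ≤ 2 * k + 1 then 2 * k + 2 - h
  else if h ≤ n - k - 2 then h - k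
  else 2 * h + 2 - n

/-- right lengths -/
def rho (k n h : ℕ) : ℕ :=
  if h ≤ k then n - h
  else if h ≤ 2 * k + 1 then n - 3 * k - 3 + h
  else if h ≤ n - k - 2 then n - k - 1 - h
  else if h ≤ n - 2 then h - 2 * k - 1
  else n - k - 1

lemma ell_inj {k n : ℕ} (hn : 4 * k + 4 ≤ n) :
    Function.Injective fun v : Fin n => ell k n v := by
  intro u v h
  apply Fin.ext
  have hu := u.2
  have hv := v.2
  simp only [ell] at h
  split_ifs at h <;> omega

lemma rho_inj {k n : ℕ} (hn : 4 * k + 4 ≤ n) :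
    Function.Injective fun v : Fin n => rho k n v := by
  intro u v h
  apply Fin.ext
  have hu := u.2
  have hv := v.2
  simp only [rho] at h
  split_ifs at h <;> omega

lemma one_le_ell {k n : ℕ} (hn : 4 * k + 4 ≤ n) (v : Fin n) : 1 ≤ ell k n v := by
  have hv := v.2
  unfold ell
  split_ifs <;> omega

lemma one_le_rho {k n : ℕ} (hn : 4 * k + 4 ≤ n) (v : Fin n) : 1 ≤ rho k n v := by
  have hv := v.2
  unfold rho
  split_ifs <;> omega

/-- the pairs which are (possibly) not visible -/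
def Bad (k n a b : ℕ) : Prop := k + 1 ≤ a ∧ a + k + 2 ≤ b ∧ 3 * k + 3 ≤ b ∧ b + k + 2 ≤ n

/-- the family of bars of the construction -/
noncomputable def ex (k n : ℕ) : Bars (Fin n) := fam (fun v => ell k n v) (fun v => rho k n v)

lemma ex_sees {k n : ℕ} (hn : 4 * k + 4 ≤ n) {u v : Fin n} (huv : u < v) (h : ¬ Bad k n u v) :
    (ex k n).Sees k u v := by
  have hv := v.2
  have huv' : (u : ℕ) < v := huv
  have L : ∀ c : ℕ, (∀ w : ℕ, (u : ℕ) < w → w < v → min (ell k n u) (ell k n v) < ell k n w →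
      c ≤ w ∧ w < c + k) → (ex k n).Sees k u v := by
    intro c hc
    exact sees_left (one_le_ell hn) (ell_inj hn) huv (c := c) fun w h1 h2 h3 => hc w h1 h2 h3
  have Rr : ∀ c : ℕ, (∀ w : ℕ, (u : ℕ) < w → w < v → min (rho k n u) (rho k n v) < rho k n w →
      c ≤ w ∧ w < c + k) → (ex k n).Sees k u v := by
    intro c hc
    exact sees_right (one_le_rho hn) (rho_inj hn) huv (c := c) fun w h1 h2 h3 => hc w h1 h2 h3
  generalize hu' : (u : ℕ) = a at *
  generalize hv' : (v : ℕ) = b at *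
  unfold Bad at h
  -- close pairs
  by_cases hclose : b ≤ a + k + 1
  · exact L (a + 1) fun w h1 h2 _ => by omega
  rw [not_le] at hclose
  by_cases ha1 : a ≤ k
  · -- `a` in the bottom group
    by_cases hb1 : b ≤ k
    · omega
    by_cases hb2 : b ≤ 2 * k + 1
    · refine Rr (a + 1) fun w h1 h2 h3 => ?_
      simp only [rho] at h3
      refine ⟨by omega, ?_⟩
      by_contra h4
      rw [min_lt_iff] at h3
      split_ifs at h3 <;> omega
    by_cases hb3 : b ≤ n - k - 2
    · refine L (a + 1) fun w h1 h2 h3 => ?_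
      simp only [ell] at h3
      refine ⟨by omega, ?_⟩
      by_contra h4
      rw [min_lt_iff] at h3
      split_ifs at h3 <;> omega
    · -- `b` in the top group
      by_cases hlt : ell k n a < ell k n b
      · refine L (n - 1 - a) fun w h1 h2 h3 => ?_
        rw [min_eq_left hlt.le] at h3
        simp only [ell] at h3 hlt
        split_ifs at h3 hlt <;> omega
      · refine L (a + 1) fun w h1 h2 h3 => ?_
        rw [min_eq_right (not_lt.1 hlt)] at h3
        simp only [ell] at h3 hlt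
        split_ifs at h3 hlt <;> omega
  by_cases ha2 : a ≤ 2 * k + 1
  · -- `a` in the second group
    by_cases hb3 : b ≤ n - k - 2
    · refine L (2 * k + 2) fun w h1 h2 h3 => ?_
      simp only [ell] at h3
      rw [min_lt_iff] at h3
      split_ifs at h3 <;> omega
    · refine Rr (a + 1) fun w h1 h2 h3 => ?_
      simp only [rho] at h3
      refine ⟨by omega, ?_⟩
      by_contra h4
      rw [min_lt_iff] at h3
      split_ifs at h3 <;> omega
  by_cases ha3 : a ≤ n - k - 2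
  · -- `a` in the third group
    by_cases hb3 : b ≤ n - k - 2
    · omega
    · refine Rr (n - k - 1) fun w h1 h2 h3 => ?_
      simp only [rho] at h3
      rw [min_lt_iff] at h3
      split_ifs at h3 <;> omega
  · omega

/-- the graph of a family of bars -/
def graph (R : Bars (Fin n)) (k : ℕ) : SimpleGraph (Fin n) where
  Adj u v := u ≠ v ∧ R.Sees k u v
  symm := ⟨by
    rintro u v ⟨h, x₁, x₂, y₁, y₂, hx, hy, h1, h2⟩
    refine ⟨h.symm, x₁, x₂, y₁, y₂, hx, hy, h1.symm, le_trans (le_of_eq ?_) h2⟩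
    congr 1
    ext w
    constructor
    · rintro ⟨a, b, c⟩; exact ⟨b, a, c⟩
    · rintro ⟨a, b, c⟩; exact ⟨b, a, c⟩⟩
  loopless := ⟨fun u h => h.1 rfl⟩

lemma graph_isBarVisibility {R : Bars (Fin n)} (hR : R.Valid) (k : ℕ) :
    IsBarVisibility k (graph R k) :=
  ⟨R, hR, fun _ _ h => ⟨fun h' => h'.2, fun h' => ⟨h, h'⟩⟩⟩

/-- pairs `a < b` -/
def lts (n : ℕ) : Finset (Fin n × Fin n) := univ.filter fun p => p.1 < p.2

lemma card_lts (n : ℕ) : (lts n).card = n.choose 2 := by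
  classical
  have h : (lts n).card = (⊤ : SimpleGraph (Fin n)).edgeFinset.card := by
    refine Finset.card_bij (fun p _ => s(p.1, p.2)) ?_ ?_ ?_
    · intro p hp
      have := (Finset.mem_filter.1 hp).2
      rw [SimpleGraph.mem_edgeFinset, SimpleGraph.mem_edgeSet, SimpleGraph.top_adj]
      exact this.ne
    · intro p hp q hq e
      have h1 := (Finset.mem_filter.1 hp).2
      have h2 := (Finset.mem_filter.1 hq).2
      rw [Sym2.eq_iff] at e
      rcases e with ⟨e1, e2⟩ | ⟨e1, e2⟩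
      · exact Prod.ext e1 e2
      · rw [e1, e2] at h1
        exact absurd h1 (lt_asymm h2)
    · intro e he
      induction e with
      | h u v =>
        rw [SimpleGraph.mem_edgeFinset, SimpleGraph.mem_edgeSet, SimpleGraph.top_adj] at he
        rcases lt_or_gt_of_ne he with h | h
        · exact ⟨(u, v), Finset.mem_filter.2 ⟨mem_univ _, h⟩, rfl⟩
        · exact ⟨(v, u), Finset.mem_filter.2 ⟨mem_univ _, h⟩, Sym2.eq_swap⟩
  rw [h, SimpleGraph.card_edgeFinset_top_eq_card_choose_two, Fintype.card_fin]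

/-- edges are at least as many as the visible pairs `a < b` -/
lemma card_le_edges {G : SimpleGraph (Fin n)} {S : Finset (Fin n × Fin n)}
    (hS : ∀ p ∈ S, p.1 < p.2 ∧ G.Adj p.1 p.2) : S.card ≤ G.edgeSet.ncard := by
  classical
  have h1 : ((S.image fun p => s(p.1, p.2) : Finset (Sym2 (Fin n))) : Set (Sym2 (Fin n))) ⊆
      G.edgeSet := by
    intro e he
    rw [Finset.coe_image] at he
    obtain ⟨p, hp, rfl⟩ := he
    exact (hS p (Finset.mem_coe.1 hp)).2
  have h2 : (S.image fun p => s(p.1, p.2)).card = S.card := by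
    refine Finset.card_image_of_injOn fun p hp q hq e => ?_
    have h1 := (hS p hp).1
    have h2 := (hS q hq).1
    simp only [Sym2.eq_iff] at e
    rcases e with ⟨e1, e2⟩ | ⟨e1, e2⟩
    · exact Prod.ext e1 e2
    · rw [e1, e2] at h1
      exact absurd h1 (lt_asymm h2)
  rw [← h2, ← Set.ncard_coe_finset]
  exact Set.ncard_le_ncard h1 (Set.toFinite _)

lemma sum_Ico_sub (k m : ℕ) : 2 * ∑ b ∈ Finset.Ico (3 * k + 3) (3 * k + 3 + m), (b - (2 * k + 2)) =
    m * (m + 2 * k + 1) := by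
  induction m with
  | zero => simp
  | succ m ih =>
      rw [← add_assoc, Finset.sum_Ico_succ_top (by omega), mul_add, ih]
      have : 3 * k + 3 + m - (2 * k + 2) = k + 1 + m := by omega
      rw [this]
      ring

open Classical in
lemma card_bad {k n : ℕ} (hn : 4 * k + 4 ≤ n) :
    2 * (univ.filter fun p : Fin n × Fin n => Bad k n p.1 p.2).card ≤
      (n - (4 * k + 4)) * (n - (2 * k + 3)) := by
  have h1 : (univ.filter fun p : Fin n × Fin n => Bad k n p.1 p.2).card ≤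
      ((Finset.Ico (3 * k + 3) (3 * k + 3 + (n - (4 * k + 4)))).sigma
        fun b => Finset.Ico (k + 1) (b - (k + 1))).card := by
    refine Finset.card_le_card_of_injOn (fun p => ⟨(p.2 : ℕ), (p.1 : ℕ)⟩) ?_ ?_
    · intro p hp
      obtain ⟨h1, h2, h3, h4⟩ := (Finset.mem_filter.1 hp).2
      refine Finset.mem_coe.2 (Finset.mem_sigma.2 ⟨Finset.mem_Ico.2 ⟨h3, ?_⟩,
        Finset.mem_Ico.2 ⟨h1, ?_⟩⟩)
      · simp only; omega
      · simp only; omega
    · intro p _ q _ e
      simp only [Sigma.mk.injEq] at e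
      exact Prod.ext (Fin.ext (eq_of_heq e.2)) (Fin.ext e.1)
  rw [Finset.card_sigma] at h1
  have h2 : ∑ b ∈ Finset.Ico (3 * k + 3) (3 * k + 3 + (n - (4 * k + 4))),
      (Finset.Ico (k + 1) (b - (k + 1))).card =
      ∑ b ∈ Finset.Ico (3 * k + 3) (3 * k + 3 + (n - (4 * k + 4))), (b - (2 * k + 2)) := by
    refine Finset.sum_congr rfl fun b _ => ?_
    rw [Nat.card_Ico]
    omega
  rw [h2] at h1
  have h3 := sum_Ico_sub k (n - (4 * k + 4))
  have h4 : n - (4 * k + 4) + 2 * k + 1 = n - (2 * k + 3) := by omega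
  rw [h4] at h3
  omega

/-- **Lower bound**, `n ≥ 4k + 4` -/
theorem lower {k n : ℕ} (hn : 4 * k + 4 ≤ n) :
    (k + 1) * (3 * n - (4 * k + 6)) ≤ (graph (ex k n) k).edgeSet.ncard := by
  classical
  set S := (lts n).filter fun p => ¬ Bad k n p.1 p.2 with hS
  have h1 : S.card ≤ (graph (ex k n) k).edgeSet.ncard := by
    refine card_le_edges fun p hp => ?_
    obtain ⟨h2, h3⟩ := Finset.mem_filter.1 hp
    have h4 := (Finset.mem_filter.1 h2).2
    exact ⟨h4, h4.ne, ex_sees hn h4 h3⟩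
  refine le_trans ?_ h1
  have h2 : (lts n).card ≤ S.card + (univ.filter fun p : Fin n × Fin n => Bad k n p.1 p.2).card := by
    rw [hS, ← Finset.card_filter_add_card_filter_not (s := lts n) fun p => ¬ Bad k n p.1 p.2]
    refine Nat.add_le_add_left (Finset.card_le_card fun p hp => ?_) _
    have := (Finset.mem_filter.1 hp).2
    exact Finset.mem_filter.2 ⟨mem_univ _, not_not.1 this⟩
  have h3 := card_bad hn
  rw [card_lts] at h2
  have h4 : n.choose 2 * 2 = n * (n - 1) := by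
    rw [Nat.choose_two_right, Nat.div_mul_cancel (Nat.even_mul_pred_self n).two_dvd]
  obtain ⟨m, rfl⟩ := Nat.exists_eq_add_of_le hn
  have e1 : 4 * k + 4 + m - 1 = 4 * k + 3 + m := by omega
  have e2 : 4 * k + 4 + m - (4 * k + 4) = m := by omega
  have e3 : 4 * k + 4 + m - (2 * k + 3) = 2 * k + 1 + m := by omega
  have e4 : 3 * (4 * k + 4 + m) - (4 * k + 6) = 8 * k + 6 + 3 * m := by omega
  rw [e1] at h4
  rw [e2, e3] at h3
  rw [e4]
  nlinarith

/-- restricting a family of bars -/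
lemma sees_comp {m n : ℕ} (R : Bars (Fin n)) (f : Fin m ↪ Fin n) {k : ℕ} {u v : Fin m}
    (h : R.Sees k (f u) (f v)) : (Bars.mk (R.l ∘ f) (R.r ∘ f) (R.y ∘ f)).Sees k u v := by
  obtain ⟨x₁, x₂, y₁, y₂, hx, hy, h1, h2⟩ := h
  refine ⟨x₁, x₂, y₁, y₂, hx, hy, h1, le_trans ?_ h2⟩
  have : f '' {w | w ≠ u ∧ w ≠ v ∧ ((Set.Icc x₁ x₂ ×ˢ Set.Icc y₁ y₂) ∩
      (Bars.mk (R.l ∘ f) (R.r ∘ f) (R.y ∘ f)).bar w).Nonempty} ⊆
      {w | w ≠ f u ∧ w ≠ f v ∧ ((Set.Icc x₁ x₂ ×ˢ Set.Icc y₁ y₂) ∩ R.bar w).Nonempty} := by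
    rintro _ ⟨w, ⟨h3, h4, h5⟩, rfl⟩
    exact ⟨fun e => h3 (f.injective e), fun e => h4 (f.injective e), h5⟩
  rw [← f.injective.encard_image]
  exact Set.encard_le_encard this

/-- complete graphs with at most `4k+4` vertices are bar `k`-visibility graphs -/
theorem complete {k n : ℕ} (hn : n ≤ 4 * k + 4) :
    IsBarVisibility k (⊤ : SimpleGraph (Fin n)) := by
  have hex : ∀ u v : Fin (4 * k + 4), u < v → (ex k (4 * k + 4)).Sees k u v := by
    intro u v huv
    refine ex_sees le_rfl huv ?_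
    rintro ⟨_, _, h3, h4⟩
    omega
  set f : Fin n ↪ Fin (4 * k + 4) := (Fin.castLEEmb hn) with hf
  set R : Bars (Fin n) := Bars.mk ((ex k (4 * k + 4)).l ∘ f) ((ex k (4 * k + 4)).r ∘ f)
    ((ex k (4 * k + 4)).y ∘ f) with hR
  have hval := fam_valid (b := fun v : Fin (4 * k + 4) => rho k (4 * k + 4) v)
    (one_le_ell (k := k) (n := 4 * k + 4) le_rfl)
  refine ⟨R, ⟨fun v => hval.1 (f v), fun u v huv => hval.2 (f u) (f v) fun e => huv (f.injective e)⟩,
    ?_⟩
  intro u v huv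
  refine ⟨fun _ => ?_, fun _ => huv⟩
  rcases lt_or_gt_of_ne huv with h | h
  · exact sees_comp _ f (hex _ _ h)
  · have h1 : R.Sees k v u := sees_comp _ f (hex _ _ h)
    have h2 : (graph R k).Adj v u := ⟨h.ne, h1⟩
    exact h2.symm.2

end Pool.Agent.K3h54.Bar
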