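import Pool.Agent.K3h54.Bar.Local

/-!
The sweep: bars start at integer times `st v` and end at integer times `en v`, all distinct.
-/

set_option autoImplicit false
set_option linter.unusedSectionVars false

namespace Pool.Agent.K3h54.Bar

open Finset

variable {V : Type*} [Fintype V] [DecidableEq V] (y : V → ℝ) (k : ℕ) (st en : V → ℕ)

/-- the bars present at time `t` (after the events with index `< t`) -/
def act (t : ℕ) : Finset V := univ.filter fun v => st v < t ∧ t ≤ en v

/-- the bars started before time `t` -/
def started (t : ℕ) : Finset V := univ.filter fun v => st v < t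

/-- the bars ended before time `t` -/
def ended (t : ℕ) : Finset V := univ.filter fun v => en v < t

/-- the pairs visible at some time `≤ t` -/
noncomputable def seen (t : ℕ) : Finset (V × V) :=
  (range (t + 1)).biUnion fun s => vis y k (act st en s)

/-- the first `2k+2` bars to start -/
def frs : Finset V := univ.filter fun v => (started st (st v)).card < 2 * k + 2

/-- the unseen pairs of bars present at time `t` -/
noncomputable def uns (t : ℕ) : Finset (V × V) :=
  ((act st en t ×ˢ act st en t).filter fun p => y p.1 < y p.2) \ seen y k st en t

/-- the unseen pairs of bars present at time `t`, both among the first -/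
noncomputable def qf (t : ℕ) : Finset (V × V) :=
  (uns y k st en t).filter fun p => p.1 ∈ frs k st ∧ p.2 ∈ frs k st

/-- the total weight of the bars present which are not among the first -/
noncomputable def phi (t : ℕ) : ℕ :=
  ∑ v ∈ (act st en t).filter (fun v => v ∉ frs k st), wt y k (act st en t) v

/-- `∑_{i<m} min(i, 2k+2)` -/
def bsum (m : ℕ) : ℕ := ∑ i ∈ range m, min i (2 * k + 2)

variable {y k st en}

lemma mem_act {t : ℕ} {v : V} : v ∈ act st en t ↔ st v < t ∧ t ≤ en v := by simp [act]
lemma mem_started {t : ℕ} {v : V} : v ∈ started st t ↔ st v < t := by simp [started]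
lemma mem_ended {t : ℕ} {v : V} : v ∈ ended en t ↔ en v < t := by simp [ended]
lemma mem_frs {v : V} : v ∈ frs k st ↔ (started st (st v)).card < 2 * k + 2 := by simp [frs]

lemma mem_seen {t : ℕ} {p : V × V} :
    p ∈ seen y k st en t ↔ ∃ s ≤ t, p ∈ vis y k (act st en s) := by
  simp only [seen, mem_biUnion, mem_range, Nat.lt_succ_iff]

lemma mem_uns {t : ℕ} {p : V × V} : p ∈ uns y k st en t ↔
    ((p.1 ∈ act st en t ∧ p.2 ∈ act st en t) ∧ y p.1 < y p.2) ∧ p ∉ seen y k st en t := by
  simp only [uns, mem_sdiff, mem_filter, mem_product]

lemma seen_succ (t : ℕ) :
    seen y k st en (t + 1) = seen y k st en t ∪ vis y k (act st en (t + 1)) := by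
  ext p
  rw [mem_union, mem_seen, mem_seen]
  constructor
  · rintro ⟨s, hs, h⟩
    rcases Nat.lt_or_ge t s with h1 | h1
    · right
      have : s = t + 1 := by omega
      rwa [this] at h
    · exact Or.inl ⟨s, h1, h⟩
  · rintro (⟨s, hs, h⟩ | h)
    · exact ⟨s, by omega, h⟩
    · exact ⟨t + 1, le_rfl, h⟩

lemma vis_subset_seen (t : ℕ) : vis y k (act st en t) ⊆ seen y k st en t := fun _ hp =>
  mem_seen.2 ⟨t, le_rfl, hp⟩

lemma bsum_succ (m : ℕ) : bsum k (m + 1) = bsum k m + min m (2 * k + 2) := by
  simp [bsum, Finset.sum_range_succ]

lemma act_subset_started (t : ℕ) : act st en t ⊆ started st t := fun _ hv =>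
  mem_started.2 (mem_act.1 hv).1

lemma act_card_add_ended (hlt : ∀ v, st v < en v) (t : ℕ) :
    (act st en t).card + (ended en t).card ≤ Fintype.card V := by
  rw [← Finset.card_union_of_disjoint]
  · exact Finset.card_le_univ _
  · rw [Finset.disjoint_left]
    intro v hv hv'
    have h1 := (mem_act.1 hv).2
    have h2 := mem_ended.1 hv'
    omega

/-- what may happen at the event with index `t` -/
lemma step (hst : Function.Injective st) (hen : Function.Injective en)
    (hne : ∀ u v, st u ≠ en v) (hlt : ∀ v, st v < en v) (t : ℕ) :
    (act st en (t + 1) = act st en t ∧ started st (t + 1) = started st t ∧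
      ended en (t + 1) = ended en t) ∨
    (∃ v, st v = t ∧ v ∉ act st en t ∧ act st en (t + 1) = insert v (act st en t) ∧
      (started st (t + 1)).card = (started st t).card + 1 ∧ ended en (t + 1) = ended en t) ∨
    (∃ z, en z = t ∧ z ∈ act st en t ∧ act st en (t + 1) = (act st en t).erase z ∧
      started st (t + 1) = started st t ∧ (ended en (t + 1)).card = (ended en t).card + 1) := by
  by_cases h1 : ∃ v, st v = t
  · right; left
    obtain ⟨v, hv⟩ := h1
    have hz : ∀ z, en z ≠ t := fun z hz => hne v z (hv.trans hz.symm)
    refine ⟨v, hv, ?_, ?_, ?_, ?_⟩
    · rw [mem_act]; omega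
    · ext w
      rw [mem_insert, mem_act, mem_act]
      have h2 := hz w
      constructor
      · rintro ⟨h3, h4⟩
        by_cases h5 : st w = t
        · left; exact hst (h5.trans hv.symm)
        · right; omega
      · rintro (rfl | h3)
        · have := hlt w; omega
        · omega
    · have e : started st (t + 1) = insert v (started st t) := by
        ext w
        rw [mem_insert, mem_started, mem_started]
        constructor
        · intro h3
          by_cases h5 : st w = t
          · left; exact hst (h5.trans hv.symm)
          · right; omega
        · rintro (rfl | h3) <;> omega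
      rw [e, Finset.card_insert_of_notMem]
      rw [mem_started]; omega
    · ext w
      rw [mem_ended, mem_ended]
      have := hz w
      omega
  · by_cases h2 : ∃ z, en z = t
    · right; right
      push Not at h1
      obtain ⟨z, hz⟩ := h2
      refine ⟨z, hz, ?_, ?_, ?_, ?_⟩
      · rw [mem_act]
        have := hlt z
        omega
      · ext w
        rw [mem_erase, mem_act, mem_act]
        have h3 := h1 w
        constructor
        · rintro ⟨h4, h5⟩
          refine ⟨?_, by omega, by omega⟩
          rintro rfl
          omega
        · rintro ⟨h4, h5, h6⟩
          refine ⟨by omega, ?_⟩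
          rcases h6.lt_or_eq with h7 | h7
          · exact h7
          · exact absurd (hen (h7.symm.trans hz.symm)) h4
      · ext w
        rw [mem_started, mem_started]
        have := h1 w
        omega
      · have e : ended en (t + 1) = insert z (ended en t) := by
          ext w
          rw [mem_insert, mem_ended, mem_ended]
          constructor
          · intro h3
            by_cases h5 : en w = t
            · left; exact hen (h5.trans hz.symm)
            · right; omega
          · rintro (rfl | h3) <;> omega
        rw [e, Finset.card_insert_of_notMem]
        rw [mem_ended]; omega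
    · left
      push Not at h1 h2
      refine ⟨?_, ?_, ?_⟩
      · ext w
        rw [mem_act, mem_act]
        have := h1 w
        have := h2 w
        omega
      · ext w
        rw [mem_started, mem_started]
        have := h1 w
        omega
      · ext w
        rw [mem_ended, mem_ended]
        have := h2 w
        omega

section main

variable (hst : Function.Injective st) (hen : Function.Injective en)
  (hne : ∀ u v, st u ≠ en v) (hlt : ∀ v, st v < en v)
  (hy : ∀ t, Set.InjOn y (act st en t : Set V))
include hst hen hne hlt hy

/-- first invariant -/
lemma inv1 (t : ℕ) : (seen y k st en t).card + (qf y k st en t).card + phi y k st en t ≤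
    bsum k (started st t).card + (k + 1) * (ended en t).card := by
  induction t with
  | zero =>
      have h0 : act st en 0 = ∅ := by
        ext v; rw [mem_act]; simp
      have h1 : seen y k st en 0 = ∅ := by
        ext p
        rw [mem_seen]
        simp only [Nat.le_zero, exists_eq_left, h0]
        simp [vis]
      have h2 : qf y k st en 0 = ∅ := by
        ext p
        simp [qf, mem_uns, h0]
      have h3 : phi y k st en 0 = 0 := by simp [phi, h0]
      rw [h1, h2, h3]
      simp
  | succ t ih =>
      rcases step hst hen hne hlt t with ⟨ha, hs, he⟩ | ⟨v, hv, hvn, ha, hs, he⟩ |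
        ⟨z, hz, hzA, ha, hs, he⟩
      · -- no event
        have e1 : seen y k st en (t + 1) = seen y k st en t := by
          rw [seen_succ, ha, Finset.union_eq_left]
          exact vis_subset_seen t
        have e2 : qf y k st en (t + 1) = qf y k st en t := by
          simp only [qf, uns, ha, e1]
        have e3 : phi y k st en (t + 1) = phi y k st en t := by
          simp only [phi, ha]
        rw [e1, e2, e3, hs, he]
        exact ih
      · -- `v` starts
        have hA := hy (t + 1)
        rw [ha] at hA
        set A := act st en t with hAdef
        have e1 : (seen y k st en (t + 1)).card ≤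
            (seen y k st en t).card + (vn y k (insert v A) v).card := by
          refine le_trans (Finset.card_le_card ?_) (Finset.card_union_le _ _)
          rw [seen_succ, ha]
          refine Finset.union_subset Finset.subset_union_left ?_
          refine (vis_insert_subset A v).trans ?_
          exact Finset.union_subset_union (vis_subset_seen t) Finset.Subset.rfl
        have hmono : seen y k st en t ⊆ seen y k st en (t + 1) := by
          rw [seen_succ]; exact Finset.subset_union_left
        rw [hs, he, bsum_succ]
        by_cases hF : v ∈ frs k st
        · have hS : (started st t).card < 2 * k + 2 := by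
            have := mem_frs.1 hF
            rwa [hv] at this
          have e2 : (qf y k st en (t + 1)).card + (vn y k (insert v A) v).card ≤
              (qf y k st en t).card + A.card := by
            have h1 : qf y k st en (t + 1) ⊆
                qf y k st en t ∪ (pv y (insert v A) v \ vn y k (insert v A) v) := by
              intro p hp
              obtain ⟨h2, h3, h4⟩ := Finset.mem_filter.1 hp
              obtain ⟨⟨⟨h5, h6⟩, h7⟩, h8⟩ := mem_uns.1 h2
              rw [ha] at h5 h6
              rw [Finset.mem_union]
              by_cases h9 : p.1 = v ∨ p.2 = v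
              · right
                refine Finset.mem_sdiff.2 ⟨mem_pv.2 ⟨⟨h5, h6⟩, h7, h9⟩, fun h10 => h8 ?_⟩
                have := (Finset.mem_filter.1 h10).1
                rw [← ha] at this
                exact vis_subset_seen _ this
              · left
                push Not at h9
                refine Finset.mem_filter.2 ⟨mem_uns.2 ⟨⟨⟨?_, ?_⟩, h7⟩, fun h => h8 (hmono h)⟩, h3, h4⟩
                · exact (Finset.mem_insert.1 h5).resolve_left h9.1
                · exact (Finset.mem_insert.1 h6).resolve_left h9.2
            have h2 := (Finset.card_le_card h1).trans (Finset.card_union_le _ _)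
            have h3 := Finset.card_sdiff_add_card_eq_card
              (vn_subset_pv (y := y) (k := k) (insert v A) v)
            have h4 := card_pv_le (y := y) A v
            omega
          have e3 : phi y k st en (t + 1) ≤ phi y k st en t := by
            unfold phi
            rw [ha, Finset.filter_insert, if_neg (by simpa using hF)]
            exact Finset.sum_le_sum fun b _ => wt_insert_le _ _ _
          have e4 : A.card ≤ (started st t).card := Finset.card_le_card (act_subset_started t)
          have e5 : min (started st t).card (2 * k + 2) = (started st t).card := by omega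
          rw [e5]
          omega
        · have hS : 2 * k + 2 ≤ (started st t).card := by
            have := mt mem_frs.2 hF
            rw [hv] at this
            omega
          have e2 : (qf y k st en (t + 1)).card ≤ (qf y k st en t).card := by
            apply Finset.card_le_card
            intro p hp
            obtain ⟨h2, h3, h4⟩ := Finset.mem_filter.1 hp
            obtain ⟨⟨⟨h5, h6⟩, h7⟩, h8⟩ := mem_uns.1 h2
            rw [ha] at h5 h6
            refine Finset.mem_filter.2 ⟨mem_uns.2 ⟨⟨⟨?_, ?_⟩, h7⟩, fun h => h8 (hmono h)⟩, h3, h4⟩
            · exact (Finset.mem_insert.1 h5).resolve_left fun h => hF (h ▸ h3)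
            · exact (Finset.mem_insert.1 h6).resolve_left fun h => hF (h ▸ h4)
          have e3 : phi y k st en (t + 1) ≤ phi y k st en t + wt y k (insert v A) v := by
            unfold phi
            rw [ha, Finset.filter_insert, if_pos hF, Finset.sum_insert (by simp [hvn]), add_comm]
            exact Nat.add_le_add_right (Finset.sum_le_sum fun b _ => wt_insert_le _ _ _) _
          have e4 := card_vn_add_wt (k := k) hA v
          have e5 : min (started st t).card (2 * k + 2) = 2 * k + 2 := by omega
          rw [e5]
          omega
      · -- `z` ends
        have hA := hy t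
        set A := act st en t with hAdef
        have e1 : (seen y k st en (t + 1)).card ≤
            (seen y k st en t).card + (vis y k (A.erase z) \ vis y k A).card := by
          refine le_trans (Finset.card_le_card ?_) (Finset.card_union_le _ _)
          rw [seen_succ, ha]
          refine Finset.union_subset Finset.subset_union_left ?_
          intro p hp
          rw [Finset.mem_union]
          by_cases h : p ∈ vis y k A
          · exact Or.inl (vis_subset_seen t h)
          · exact Or.inr (Finset.mem_sdiff.2 ⟨hp, h⟩)
        have hmono : seen y k st en t ⊆ seen y k st en (t + 1) := by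
          rw [seen_succ]; exact Finset.subset_union_left
        have e2 : (qf y k st en (t + 1)).card ≤ (qf y k st en t).card := by
          apply Finset.card_le_card
          intro p hp
          obtain ⟨h2, h3, h4⟩ := Finset.mem_filter.1 hp
          obtain ⟨⟨⟨h5, h6⟩, h7⟩, h8⟩ := mem_uns.1 h2
          rw [ha] at h5 h6
          exact Finset.mem_filter.2 ⟨mem_uns.2 ⟨⟨⟨Finset.mem_of_mem_erase h5,
            Finset.mem_of_mem_erase h6⟩, h7⟩, fun h => h8 (hmono h)⟩, h3, h4⟩
        have e3 : phi y k st en (t + 1) ≤
            phi y k st en t + (Bz y k A z).card + (Cz y k A z).card := by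
          unfold phi
          rw [ha, ← hAdef]
          calc ∑ b ∈ (A.erase z).filter (fun v => v ∉ frs k st), wt y k (A.erase z) b
              ≤ ∑ b ∈ A.filter (fun v => v ∉ frs k st), wt y k (A.erase z) b := by
                apply Finset.sum_le_sum_of_subset
                exact Finset.filter_subset_filter _ (Finset.erase_subset _ _)
            _ ≤ ∑ b ∈ A.filter (fun v => v ∉ frs k st), (wt y k A b +
                  (if b ∈ Bz y k A z then 1 else 0) + (if b ∈ Cz y k A z then 1 else 0)) := by
                refine Finset.sum_le_sum fun b hb => ?_
                exact wt_erase_le (Finset.mem_filter.1 hb).1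
            _ ≤ _ := by
                rw [Finset.sum_add_distrib, Finset.sum_add_distrib]
                have h1 : ∀ S : Finset V, ∑ b ∈ A.filter (fun v => v ∉ frs k st),
                    (if b ∈ S then 1 else 0) ≤ S.card := by
                  intro S
                  rw [← Finset.sum_filter, ← Finset.card_eq_sum_ones]
                  refine Finset.card_le_card fun b hb => (Finset.mem_filter.1 hb).2
                have h2 := h1 (Bz y k A z)
                have h3 := h1 (Cz y k A z)
                omega
        have e4 := remove_bound (k := k) hA hzA
        rw [hs, he]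
        have e5 : (k + 1) * ((ended en t).card + 1) = (k + 1) * (ended en t).card + (k + 1) := by
          ring
        rw [e5]
        omega

/-- when at most `2k+3` bars are present, the unseen pairs are bounded -/
lemma uns_le {t : ℕ} (hc : (act st en t).card ≤ 2 * k + 3) :
    (uns y k st en t).card ≤ (qf y k st en t).card + phi y k st en t := by
  set A := act st en t with hAdef
  have h1 : uns y k st en t ⊆ qf y k st en t ∪
      (A.filter fun v => v ∉ frs k st).biUnion fun v => pv y A v \ vis y k A := by
    intro p hp
    obtain ⟨⟨⟨h5, h6⟩, h7⟩, h8⟩ := mem_uns.1 hp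
    have h9 : p ∉ vis y k A := fun h => h8 (vis_subset_seen t h)
    rw [mem_union, mem_biUnion]
    by_cases g1 : p.1 ∈ frs k st
    · by_cases g2 : p.2 ∈ frs k st
      · exact Or.inl (Finset.mem_filter.2 ⟨hp, g1, g2⟩)
      · exact Or.inr ⟨p.2, Finset.mem_filter.2 ⟨h6, g2⟩,
          Finset.mem_sdiff.2 ⟨mem_pv.2 ⟨⟨h5, h6⟩, h7, Or.inr rfl⟩, h9⟩⟩
    · exact Or.inr ⟨p.1, Finset.mem_filter.2 ⟨h5, g1⟩,
        Finset.mem_sdiff.2 ⟨mem_pv.2 ⟨⟨h5, h6⟩, h7, Or.inl rfl⟩, h9⟩⟩
  refine (Finset.card_le_card h1).trans ((Finset.card_union_le _ _).trans ?_)
  refine Nat.add_le_add_left (Finset.card_biUnion_le.trans ?_) _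
  unfold phi
  refine Finset.sum_le_sum fun v hv => ?_
  exact card_invis_le_wt (hy t) (Finset.mem_filter.1 hv).1 hc

/-- second invariant -/
lemma inv2 (hn : 2 * k + 3 ≤ Fintype.card V) (t : ℕ)
    (ht : Fintype.card V - (2 * k + 3) ≤ (ended en t).card) :
    (seen y k st en t).card + (uns y k st en t).card ≤
      bsum k (started st t).card + (k + 1) * (Fintype.card V - (2 * k + 3)) := by
  -- conversion at the time of transition
  have conv : ∀ t, (ended en t).card = Fintype.card V - (2 * k + 3) →
      (seen y k st en t).card + (uns y k st en t).card ≤
      bsum k (started st t).card + (k + 1) * (Fintype.card V - (2 * k + 3)) := by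
    intro t ht
    have h1 := inv1 (k := k) hst hen hne hlt hy t
    have h2 := act_card_add_ended (st := st) (en := en) hlt t
    have h3 := uns_le (k := k) hst hen hne hlt hy (t := t) (by omega)
    rw [ht] at h1
    omega
  induction t with
  | zero =>
      refine conv 0 ?_
      have : (ended en 0).card = 0 := by
        rw [Finset.card_eq_zero]
        ext v; rw [mem_ended]; simp
      omega
  | succ t ih =>
      rcases step hst hen hne hlt t with ⟨ha, hs, he⟩ | ⟨v, hv, hvn, ha, hs, he⟩ |
        ⟨z, hz, hzA, ha, hs, he⟩
      · have e1 : seen y k st en (t + 1) = seen y k st en t := by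
          rw [seen_succ, ha, Finset.union_eq_left]
          exact vis_subset_seen t
        have e2 : uns y k st en (t + 1) = uns y k st en t := by
          simp only [uns, ha, e1]
        rw [e1, e2, hs]
        rw [he] at ht
        exact ih ht
      · rw [he] at ht
        have ih := ih ht
        have hcard := act_card_add_ended (st := st) (en := en) hlt (t + 1)
        rw [he, ha, Finset.card_insert_of_notMem hvn] at hcard
        set A := act st en t with hAdef
        have e1 : (seen y k st en (t + 1)).card ≤
            (seen y k st en t).card + (vn y k (insert v A) v).card := by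
          refine le_trans (Finset.card_le_card ?_) (Finset.card_union_le _ _)
          rw [seen_succ, ha]
          refine Finset.union_subset Finset.subset_union_left ?_
          refine (vis_insert_subset A v).trans ?_
          exact Finset.union_subset_union (vis_subset_seen t) Finset.Subset.rfl
        have hmono : seen y k st en t ⊆ seen y k st en (t + 1) := by
          rw [seen_succ]; exact Finset.subset_union_left
        have e2 : (uns y k st en (t + 1)).card + (vn y k (insert v A) v).card ≤
            (uns y k st en t).card + A.card := by
          have h1 : uns y k st en (t + 1) ⊆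
              uns y k st en t ∪ (pv y (insert v A) v \ vn y k (insert v A) v) := by
            intro p hp
            obtain ⟨⟨⟨h5, h6⟩, h7⟩, h8⟩ := mem_uns.1 hp
            rw [ha] at h5 h6
            rw [Finset.mem_union]
            by_cases h9 : p.1 = v ∨ p.2 = v
            · right
              refine Finset.mem_sdiff.2 ⟨mem_pv.2 ⟨⟨h5, h6⟩, h7, h9⟩, fun h10 => h8 ?_⟩
              have := (Finset.mem_filter.1 h10).1
              rw [← ha] at this
              exact vis_subset_seen _ this
            · left
              push Not at h9
              refine mem_uns.2 ⟨⟨⟨?_, ?_⟩, h7⟩, fun h => h8 (hmono h)⟩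
              · exact (Finset.mem_insert.1 h5).resolve_left h9.1
              · exact (Finset.mem_insert.1 h6).resolve_left h9.2
          have h2 := (Finset.card_le_card h1).trans (Finset.card_union_le _ _)
          have h3 := Finset.card_sdiff_add_card_eq_card
            (vn_subset_pv (y := y) (k := k) (insert v A) v)
          have h4 := card_pv_le (y := y) A v
          omega
        have e4 : A.card ≤ (started st t).card := Finset.card_le_card (act_subset_started t)
        have e5 : A.card ≤ min (started st t).card (2 * k + 2) := by
          apply le_min e4
          omega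
        rw [hs, bsum_succ]
        omega
      · rcases Nat.lt_or_ge (ended en t).card (Fintype.card V - (2 * k + 3)) with h0 | h0
        · exact conv (t + 1) (by omega)
        · have ih := ih h0
          set A := act st en t with hAdef
          have hmono : seen y k st en t ⊆ seen y k st en (t + 1) := by
            rw [seen_succ]; exact Finset.subset_union_left
          have hu : uns y k st en (t + 1) ⊆ uns y k st en t := by
            intro p hp
            obtain ⟨⟨⟨h5, h6⟩, h7⟩, h8⟩ := mem_uns.1 hp
            rw [ha] at h5 h6
            exact mem_uns.2 ⟨⟨⟨Finset.mem_of_mem_erase h5,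
              Finset.mem_of_mem_erase h6⟩, h7⟩, fun h => h8 (hmono h)⟩
          have hs' : seen y k st en (t + 1) ⊆
              seen y k st en t ∪ (uns y k st en t \ uns y k st en (t + 1)) := by
            intro p hp
            rw [mem_union, mem_sdiff]
            by_cases h : p ∈ seen y k st en t
            · exact Or.inl h
            · right
              have h1 : p ∈ vis y k (act st en (t + 1)) := by
                rw [seen_succ, mem_union] at hp
                exact hp.resolve_left h
              obtain ⟨⟨h3, h4⟩, h5, _⟩ := mem_vis.1 h1
              rw [ha] at h3 h4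
              refine ⟨mem_uns.2 ⟨⟨⟨Finset.mem_of_mem_erase h3, Finset.mem_of_mem_erase h4⟩, h5⟩,
                h⟩, fun h6 => (mem_uns.1 h6).2 hp⟩
          have h1 := (Finset.card_le_card hs').trans (Finset.card_union_le _ _)
          have h2 := Finset.card_sdiff_add_card_eq_card hu
          rw [hs]
          omega

end main

lemma bsum_eq (m : ℕ) (hm : 2 * k + 2 ≤ m) :
    bsum k m = (k + 1) * (2 * k + 1) + (2 * k + 2) * (m - (2 * k + 2)) := by
  induction m, hm using Nat.le_induction with
  | base =>
      rw [Nat.sub_self, mul_zero, add_zero]
      have : bsum k (2 * k + 2) = ∑ i ∈ range (2 * k + 2), i := by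
        unfold bsum
        refine Finset.sum_congr rfl fun i hi => ?_
        rw [mem_range] at hi
        omega
      rw [this, Finset.sum_range_id]
      have e : (2 * k + 2) * (2 * k + 2 - 1) = ((k + 1) * (2 * k + 1)) * 2 := by
        rw [show 2 * k + 2 - 1 = 2 * k + 1 by omega]
        ring
      rw [e, Nat.mul_div_cancel _ (by norm_num)]
  | succ m hm ih =>
      rw [bsum_succ, ih, min_eq_right hm]
      obtain ⟨j, rfl⟩ := Nat.exists_eq_add_of_le hm
      have e1 : 2 * k + 2 + j - (2 * k + 2) = j := by omega
      have e2 : 2 * k + 2 + j + 1 - (2 * k + 2) = j + 1 := by omega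
      rw [e1, e2]
      ring

/-- the upper bound for the number of visible pairs -/
theorem seen_card_le (hst : Function.Injective st) (hen : Function.Injective en)
    (hne : ∀ u v, st u ≠ en v) (hlt : ∀ v, st v < en v)
    (hy : ∀ t, Set.InjOn y (act st en t : Set V)) (hn : 2 * k + 3 ≤ Fintype.card V) (t : ℕ) :
    (seen y k st en t).card ≤ (k + 1) * (3 * Fintype.card V - (4 * k + 6)) := by
  -- a time after all the events
  obtain ⟨T, hT⟩ : ∃ T, ∀ v, en v < T := by
    refine ⟨(univ.sup en) + 1, fun v => Nat.lt_succ_of_le (Finset.le_sup (mem_univ v))⟩
  have h1 : seen y k st en t ⊆ seen y k st en (max t T) := by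
    intro p hp
    obtain ⟨s, hs, h⟩ := mem_seen.1 hp
    exact mem_seen.2 ⟨s, hs.trans (le_max_left _ _), h⟩
  refine (Finset.card_le_card h1).trans ?_
  have h2 : (ended en (max t T)).card = Fintype.card V := by
    rw [← Finset.card_univ]
    congr 1
    ext v
    rw [mem_ended]
    have := hT v
    simp only [mem_univ, iff_true]
    omega
  have h3 : (started st (max t T)).card = Fintype.card V := by
    rw [← Finset.card_univ]
    congr 1
    ext v
    rw [mem_started]
    have := hT v
    have := hlt v
    simp only [mem_univ, iff_true]
    omega
  have h4 := inv2 hst hen hne hlt hy hn (max t T) (by rw [h2]; omega)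
  rw [h3, bsum_eq _ (by omega)] at h4
  obtain ⟨j, hj⟩ := Nat.exists_eq_add_of_le hn
  rw [hj] at h4 ⊢
  have e1 : 2 * k + 3 + j - (2 * k + 2) = j + 1 := by omega
  have e2 : 2 * k + 3 + j - (2 * k + 3) = j := by omega
  have e3 : 3 * (2 * k + 3 + j) - (4 * k + 6) = 2 * k + 3 + 3 * j := by omega
  rw [e1, e2] at h4
  rw [e3]
  have e4 : (k + 1) * (2 * k + 1) + (2 * k + 2) * (j + 1) + (k + 1) * j =
      (k + 1) * (2 * k + 3 + 3 * j) := by ring
  omega

end Pool.Agent.K3h54.Bar
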