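import Pool.Agent.K3h54.Bar.Defs
import Pool.Agent.K3h54.Bar.Process

/-!
The upper bound for bar visibility graphs: the sweep from left to right.
-/

set_option autoImplicit false

namespace Pool.Agent.K3h54.Bar

open Finset

variable {n : ℕ} (R : Bars (Fin n))

/-- the key of an event: its abscissa, ties being broken (starts first) -/
noncomputable def key (e : Fin n × Bool) : ℝ ×ₗ ℕ :=
  toLex (if e.2 then R.r e.1 else R.l e.1, if e.2 then n + e.1 else e.1)

/-- the abscissa of an event -/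
noncomputable def abs' (e : Fin n × Bool) : ℝ := if e.2 then R.r e.1 else R.l e.1

/-- the rank of an event -/
noncomputable def rk (e : Fin n × Bool) : ℕ := (univ.filter fun e' => key R e' < key R e).card

variable {R}

lemma key_injective : Function.Injective (key R) := by
  rintro ⟨u, a⟩ ⟨v, b⟩ h
  have h2 := congrArg (fun z => (ofLex z).2) h
  have hu := u.2
  have hv := v.2
  cases a <;> cases b <;> simp only [key, ofLex_toLex] at h2
  · have : u = v := Fin.ext (by simpa using h2)
    rw [this]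
  · simp at h2; omega
  · simp at h2; omega
  · have : u = v := Fin.ext (by simpa using h2)
    rw [this]

lemma rk_lt_iff {e e' : Fin n × Bool} : rk R e < rk R e' ↔ key R e < key R e' := by
  constructor
  · intro h
    by_contra hk
    rw [not_lt] at hk
    have : (univ.filter fun e'' => key R e'' < key R e').card ≤
        (univ.filter fun e'' => key R e'' < key R e).card := by
      apply Finset.card_le_card
      intro e'' he
      rw [mem_filter] at he ⊢
      exact ⟨he.1, lt_of_lt_of_le he.2 hk⟩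
    unfold rk at h
    omega
  · intro h
    unfold rk
    apply Finset.card_lt_card
    refine ⟨fun e'' he => ?_, fun hs => ?_⟩
    · rw [mem_filter] at he ⊢
      exact ⟨he.1, he.2.trans h⟩
    · have h1 : e ∈ univ.filter fun e'' => key R e'' < key R e' := by simpa using h
      have h2 := (mem_filter.1 (hs h1)).2
      exact lt_irrefl _ h2

lemma rk_injective : Function.Injective (rk R) := by
  intro e e' h
  apply key_injective (R := R)
  rcases lt_trichotomy (key R e) (key R e') with h1 | h1 | h1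
  · have := rk_lt_iff.2 h1; omega
  · exact h1
  · have := rk_lt_iff.2 h1; omega

lemma key_lt_of_abs_lt {e e' : Fin n × Bool} (h : abs' R e < abs' R e') : key R e < key R e' := by
  unfold key
  rw [Prod.Lex.toLex_lt_toLex]
  exact Or.inl h

lemma abs_le_of_key_lt {e e' : Fin n × Bool} (h : key R e < key R e') : abs' R e ≤ abs' R e' := by
  by_contra hlt
  rw [not_le] at hlt
  exact lt_asymm h (key_lt_of_abs_lt hlt)

/-- the time corresponding to the abscissa `x` -/
noncomputable def tm (R : Bars (Fin n)) (x : ℝ) : ℕ := (univ.filter fun e => abs' R e < x).card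

lemma rk_lt_tm {e : Fin n × Bool} {x : ℝ} : rk R e < tm R x ↔ abs' R e < x := by
  constructor
  · intro h
    by_contra hx
    rw [not_lt] at hx
    have : (univ.filter fun e' => abs' R e' < x).card ≤
        (univ.filter fun e' => key R e' < key R e).card := by
      apply Finset.card_le_card
      intro e' he
      rw [mem_filter] at he ⊢
      exact ⟨he.1, key_lt_of_abs_lt (lt_of_lt_of_le he.2 hx)⟩
    unfold rk tm at h
    omega
  · intro h
    unfold rk tm
    apply Finset.card_lt_card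
    refine ⟨fun e' he => ?_, fun hs => ?_⟩
    · rw [mem_filter] at he ⊢
      exact ⟨he.1, lt_of_le_of_lt (abs_le_of_key_lt he.2) h⟩
    · have h1 : e ∈ univ.filter fun e' => abs' R e' < x := by simpa using h
      have h2 := (mem_filter.1 (hs h1)).2
      exact lt_irrefl _ h2

/-- start and end times -/
noncomputable def stt (R : Bars (Fin n)) (v : Fin n) : ℕ := rk R (v, false)
noncomputable def ent (R : Bars (Fin n)) (v : Fin n) : ℕ := rk R (v, true)

lemma stt_lt_ent (hR : R.Valid) (v : Fin n) : stt R v < ent R v := by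
  unfold stt ent
  rw [rk_lt_iff]
  apply key_lt_of_abs_lt
  simpa [abs'] using hR.1 v

lemma injOn_act (hR : R.Valid) (t : ℕ) :
    Set.InjOn R.y (act (stt R) (ent R) t : Set (Fin n)) := by
  intro u hu v hv huv
  by_contra hne
  have h1 := mem_act.1 (Finset.mem_coe.1 hu)
  have h2 := mem_act.1 (Finset.mem_coe.1 hv)
  have h3 : stt R u < ent R v := by omega
  have h4 : stt R v < ent R u := by omega
  have h5 : R.l u ≤ R.r v := by
    have := abs_le_of_key_lt (rk_lt_iff.1 h3)
    simpa [abs'] using this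
  have h6 : R.l v ≤ R.r u := by
    have := abs_le_of_key_lt (rk_lt_iff.1 h4)
    simpa [abs'] using this
  have h7 := hR.2 u v hne
  rw [Set.disjoint_left] at h7
  refine h7 (a := (max (R.l u) (R.l v), R.y u)) ?_ ?_
  · exact ⟨⟨le_max_left _ _, max_le (hR.1 u).le h6⟩, rfl⟩
  · exact ⟨⟨le_max_right _ _, max_le h5 (hR.1 v).le⟩, huv⟩

/-- a visible pair is seen during the sweep -/
lemma seen_of_rect {k : ℕ} {u v : Fin n} {x₁ x₂ y₁ y₂ : ℝ} (hx : x₁ < x₂) (hyy : y₁ < y₂)
    (h1 : Set.Icc x₁ x₂ ×ˢ {y₁} ⊆ R.bar u) (h2 : Set.Icc x₁ x₂ ×ˢ {y₂} ⊆ R.bar v)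
    (hk : {w | w ≠ u ∧ w ≠ v ∧
      ((Set.Icc x₁ x₂ ×ˢ Set.Icc y₁ y₂) ∩ R.bar w).Nonempty}.encard ≤ k) :
    (u, v) ∈ seen R.y k (stt R) (ent R) (2 * n) := by
  -- a generic abscissa
  obtain ⟨x, hx1, hx2, hxe⟩ : ∃ x, x₁ < x ∧ x < x₂ ∧ ∀ e : Fin n × Bool, abs' R e ≠ x := by
    have hinf : (Set.Ioo x₁ x₂).Infinite := Set.Ioo_infinite hx
    have hfin : (Set.range (abs' R)).Finite := Set.finite_range _
    obtain ⟨x, hx, hx'⟩ := hinf.exists_notMem_finite hfin
    exact ⟨x, hx.1, hx.2, fun e he => hx' ⟨e, he⟩⟩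
  have hu1 := h1 (show ((x₁, y₁) : ℝ × ℝ) ∈ _ from ⟨⟨le_rfl, hx.le⟩, rfl⟩)
  have hu2 := h1 (show ((x₂, y₁) : ℝ × ℝ) ∈ _ from ⟨⟨hx.le, le_rfl⟩, rfl⟩)
  have hv1 := h2 (show ((x₁, y₂) : ℝ × ℝ) ∈ _ from ⟨⟨le_rfl, hx.le⟩, rfl⟩)
  have hv2 := h2 (show ((x₂, y₂) : ℝ × ℝ) ∈ _ from ⟨⟨hx.le, le_rfl⟩, rfl⟩)
  have eu : y₁ = R.y u := hu1.2
  have ev : y₂ = R.y v := hv1.2
  have lu : R.l u ≤ x₁ := hu1.1.1
  have ru : x₂ ≤ R.r u := hu2.1.2
  have lv : R.l v ≤ x₁ := hv1.1.1
  have rv : x₂ ≤ R.r v := hv2.1.2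
  have hact : ∀ w, w ∈ act (stt R) (ent R) (tm R x) ↔ R.l w < x ∧ x ≤ R.r w := by
    intro w
    have a1 := rk_lt_tm (R := R) (e := (w, false)) (x := x)
    have a2 := rk_lt_tm (R := R) (e := (w, true)) (x := x)
    rw [mem_act]
    unfold stt ent
    rw [a1, ← not_lt, a2]
    simp [abs']
  rw [mem_seen]
  refine ⟨tm R x, ?_, ?_⟩
  · unfold tm
    refine (Finset.card_le_univ _).trans ?_
    rw [Fintype.card_prod, Fintype.card_fin, Fintype.card_bool]
    omega
  · rw [mem_vis]
    refine ⟨⟨(hact u).2 ⟨by linarith, by linarith⟩, (hact v).2 ⟨by linarith, by linarith⟩⟩, ?_, ?_⟩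
    · change R.y u < R.y v
      rw [← eu, ← ev]
      exact hyy
    · have hsub : ((btw R.y (act (stt R) (ent R) (tm R x)) u v : Finset (Fin n)) : Set (Fin n)) ⊆
          {w | w ≠ u ∧ w ≠ v ∧ ((Set.Icc x₁ x₂ ×ˢ Set.Icc y₁ y₂) ∩ R.bar w).Nonempty} := by
        intro w hw
        obtain ⟨g1, g2, g3⟩ := mem_btw.1 (Finset.mem_coe.1 hw)
        rw [hact] at g1
        refine ⟨?_, ?_, (x, R.y w), ?_, ?_⟩
        · rintro rfl; exact lt_irrefl _ g2
        · rintro rfl; exact lt_irrefl _ g3
        · refine ⟨⟨hx1.le, hx2.le⟩, ?_, ?_⟩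
          · rw [eu]; exact g2.le
          · rw [ev]; exact g3.le
        · exact ⟨⟨g1.1.le, g1.2⟩, rfl⟩
      have h3 := (Set.encard_le_encard hsub).trans hk
      rw [Set.encard_coe_eq_coe_finsetCard] at h3
      exact_mod_cast h3

/-- **Upper bound.** -/
theorem upper {k : ℕ} {G : SimpleGraph (Fin n)} (hG : IsBarVisibility k G) (hn : 2 * k + 3 ≤ n) :
    G.edgeSet.ncard ≤ (k + 1) * (3 * n - (4 * k + 6)) := by
  obtain ⟨R, hR, hS⟩ := hG
  have hcard := seen_card_le (y := R.y) (k := k) (st := stt R) (en := ent R)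
    (fun u v h => by have := rk_injective (R := R) h; simpa using this)
    (fun u v h => by have := rk_injective (R := R) h; simpa using this)
    (fun u v h => by have := rk_injective (R := R) h; simp at this)
    (stt_lt_ent hR) (injOn_act hR) (by rw [Fintype.card_fin]; exact hn) (2 * n)
  rw [Fintype.card_fin] at hcard
  refine le_trans ?_ hcard
  have hsub : G.edgeSet ⊆
      ((seen R.y k (stt R) (ent R) (2 * n)).image (fun p => s(p.1, p.2)) : Finset (Sym2 (Fin n))) := by
    intro e he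
    induction e with
    | h u v =>
      rw [SimpleGraph.mem_edgeSet] at he
      obtain ⟨x₁, x₂, y₁, y₂, hx, hyy, h, hk⟩ := (hS u v he.ne).1 he
      rw [Finset.coe_image]
      rcases h with ⟨h1, h2⟩ | ⟨h1, h2⟩
      · exact ⟨(u, v), Finset.mem_coe.2 (seen_of_rect hx hyy h1 h2 hk), rfl⟩
      · refine ⟨(v, u), Finset.mem_coe.2 (seen_of_rect hx hyy h1 h2 ?_), Sym2.eq_swap⟩
        refine le_trans (le_of_eq ?_) hk
        congr 1
        ext w
        constructor
        · rintro ⟨a, b, c⟩; exact ⟨b, a, c⟩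
        · rintro ⟨a, b, c⟩; exact ⟨b, a, c⟩
  refine (Set.ncard_le_ncard hsub (Finset.finite_toSet _)).trans ?_
  rw [Set.ncard_coe_finset]
  exact Finset.card_image_le

end Pool.Agent.K3h54.Bar
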